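import Pool.Agent.ETCP.Basic

/-!
THEOREM K4+ of helper29, the count: steps (1), (2), (3), (4), (5), set valued.
-/

set_option autoImplicit false
set_option linter.unusedSectionVars false
set_option linter.unusedVariables false

namespace Pool.Agent.HAS45

open scoped BigOperators
open Pool.Agent.Helper58.PLine (QData)
open Pool.Agent.ETCP

variable {V Q : Type} [AddCommGroup V] [Module (ZMod 2) V]

/-- The situation of the count in K4+: `G` is the preimage of `U2`, `E` the preimage of `U1`,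
`Fs` the largest hyperplane like subspace, `M` the elements `t` of `G` with `V_t + G = V`. -/
structure KC (S : QData V Q) (x : V) (G Fs M E : Submodule (ZMod 2) V) : Prop where
  he : S.e = 0
  xG : ∀ y, C S x y → y ∈ G
  GF : G ≤ Fs
  ne : ∃ u, u ∉ Fs
  out : ∀ u, u ∉ Fs → ∀ y, C S u y → y ∈ G ∨ y + u ∈ G
  MG : M ≤ G
  full : ∀ m ∈ M, ∀ v, ∃ g ∈ G, C S m (v + g)
  inM : ∀ g ∈ G, ∀ y, y ∉ Fs → C S g y → g ∈ M
  sM : ∀ m ∈ M, ∀ y, C S (x + m) y → y ∈ G
  EG : ∀ v, ∃ e ∈ E, v + e ∈ G
  Ex : ∀ e ∈ E, e ∈ G → C S x e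
  good : ∀ u, u ∉ Fs → ∀ e ∈ E, u + e ∈ G → ∃ t, S.q u t = S.q x e

theorem aav (x : V) : x + x = 0 := ZModModule.add_self x

section cnt

variable [Fintype V]

open Classical in
/-- number of elements with the property `p` -/
noncomputable def cnt (p : V → Prop) : ℕ := (Finset.univ.filter p).card

theorem cnt_congr {p p' : V → Prop} (h : ∀ v, p v ↔ p' v) : cnt p = cnt p' := by
  have : p = p' := funext fun v => propext (h v)
  rw [this]

open Classical in
theorem cnt_sum (p : V → Prop) : cnt p = ∑ v : V, if p v then 1 else 0 := by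
  unfold cnt
  rw [Finset.card_filter]

open Classical in
theorem cnt_le {p p' : V → Prop} (h : ∀ v, p v → p' v) : cnt p ≤ cnt p' := by
  unfold cnt
  apply Finset.card_le_card
  intro v hv
  rw [Finset.mem_filter] at hv ⊢
  exact ⟨hv.1, h v hv.2⟩

open Classical in
theorem cnt_pos {p : V → Prop} {v : V} (h : p v) : 0 < cnt p := by
  unfold cnt
  rw [Finset.card_pos]
  exact ⟨v, Finset.mem_filter.2 ⟨Finset.mem_univ _, h⟩⟩

open Classical in
theorem exists_of_pos {p : V → Prop} (h : 0 < cnt p) : ∃ v, p v := by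
  unfold cnt at h
  rw [Finset.card_pos] at h
  obtain ⟨v, hv⟩ := h
  exact ⟨v, (Finset.mem_filter.1 hv).2⟩

/-- translation -/
theorem cnt_shift {p p' : V → Prop} (a : V) (h : ∀ v, p (v + a) ↔ p' v) : cnt p = cnt p' := by
  classical
  rw [cnt_sum, cnt_sum, ← Equiv.sum_comp (Equiv.addRight a)]
  refine Finset.sum_congr rfl fun v _ => ?_
  rw [Equiv.coe_addRight]
  by_cases hv : p' v
  · rw [if_pos hv, if_pos ((h v).2 hv)]
  · rw [if_neg hv, if_neg (fun h' => hv ((h v).1 h'))]

open Classical in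
/-- sum of `f` over the elements with property `A` -/
noncomputable def sm (A : V → Prop) (f : V → ℕ) : ℕ := ∑ s : V, if A s then f s else 0

theorem sm_congr {A : V → Prop} {f f' : V → ℕ} (h : ∀ s, A s → f s = f' s) : sm A f = sm A f' := by
  classical
  unfold sm
  refine Finset.sum_congr rfl fun s _ => ?_
  split_ifs with hs
  · exact h s hs
  · rfl

theorem sm_le {A : V → Prop} {f f' : V → ℕ} (h : ∀ s, A s → f s ≤ f' s) : sm A f ≤ sm A f' := by
  classical
  unfold sm
  refine Finset.sum_le_sum fun s _ => ?_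
  split_ifs with hs
  · exact h s hs
  · exact le_rfl

theorem sm_mono {A A' : V → Prop} {f : V → ℕ} (h : ∀ s, A s → A' s) : sm A f ≤ sm A' f := by
  classical
  unfold sm
  refine Finset.sum_le_sum fun s _ => ?_
  split_ifs with h1 h2 h2
  · exact le_rfl
  · exact absurd (h s h1) h2
  · exact Nat.zero_le _
  · exact le_rfl

/-- equality of sums gives termwise equality -/
theorem sm_eq {A : V → Prop} {f f' : V → ℕ} (h : ∀ s, A s → f s ≤ f' s) (he : sm A f = sm A f') :
    ∀ s, A s → f s = f' s := by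
  classical
  intro s hs
  have h1 : ∀ s ∈ (Finset.univ : Finset V), (if A s then f s else 0) ≤ (if A s then f' s else 0) := by
    intro s _
    split_ifs with hs
    · exact h s hs
    · exact le_rfl
  have h2 := (Finset.sum_eq_sum_iff_of_le h1).1 he s (Finset.mem_univ s)
  rwa [if_pos hs, if_pos hs] at h2

/-- equality of sums over two sets -/
theorem sm_mono_eq {A A' : V → Prop} {f : V → ℕ} (h : ∀ s, A s → A' s) (hf : ∀ s, 0 < f s)
    (he : sm A f = sm A' f) : ∀ s, A' s → A s := by
  classical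
  intro s hs
  have h1 : ∀ s ∈ (Finset.univ : Finset V), (if A s then f s else 0) ≤ (if A' s then f s else 0) := by
    intro s _
    split_ifs with h1 h2 h2
    · exact le_rfl
    · exact absurd (h s h1) h2
    · exact Nat.zero_le _
    · exact le_rfl
  have h2 := (Finset.sum_eq_sum_iff_of_le h1).1 he s (Finset.mem_univ s)
  by_contra h3
  rw [if_neg h3, if_pos hs] at h2
  have := hf s
  omega

/-- counting pairs in two ways -/
theorem swap (A B : V → Prop) (R : V → V → Prop) :
    sm A (fun s => cnt fun y => B y ∧ R s y) = sm B (fun y => cnt fun s => A s ∧ R s y) := by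
  classical
  unfold sm
  have h1 : ∀ s : V, (if A s then cnt (fun y => B y ∧ R s y) else 0) =
      ∑ y : V, if A s ∧ B y ∧ R s y then 1 else 0 := by
    intro s
    by_cases hs : A s
    · rw [if_pos hs, cnt_sum]
      refine Finset.sum_congr rfl fun y _ => ?_
      simp [hs]
    · rw [if_neg hs]
      symm
      refine Finset.sum_eq_zero fun y _ => ?_
      rw [if_neg (fun h => hs h.1)]
  have h2 : ∀ y : V, (if B y then cnt (fun s => A s ∧ R s y) else 0) =
      ∑ s : V, if A s ∧ B y ∧ R s y then 1 else 0 := by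
    intro y
    by_cases hy : B y
    · rw [if_pos hy, cnt_sum]
      refine Finset.sum_congr rfl fun s _ => ?_
      simp [hy]
    · rw [if_neg hy]
      symm
      refine Finset.sum_eq_zero fun s _ => ?_
      rw [if_neg (fun h => hy h.2.1)]
  simp only [h1, h2]
  exact Finset.sum_comm

theorem sm_shift {A A' : V → Prop} {f f' : V → ℕ} (a : V) (h : ∀ v, A (v + a) ↔ A' v)
    (hf : ∀ v, f (v + a) = f' v) : sm A f = sm A' f' := by
  classical
  unfold sm
  rw [← Equiv.sum_comp (Equiv.addRight a)]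
  refine Finset.sum_congr rfl fun v _ => ?_
  rw [Equiv.coe_addRight, hf]
  by_cases hv : A' v
  · rw [if_pos hv, if_pos ((h v).2 hv)]
  · rw [if_neg hv, if_neg (fun h' => hv ((h v).1 h'))]

end cnt

section main

variable [Fintype V] {S : QData V Q} {x : V} {G Fs M E : Submodule (ZMod 2) V}

/-- the set `{y : q (s, y) = b}` is a coset of `V_s` -/
theorem cnt_coset {s y0 : V} {b : Q} (h : S.q s y0 = b) :
    cnt (fun y => S.q s y = b) = cnt (fun y => C S s y) := by
  apply cnt_shift y0
  intro y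
  rw [← h, q_eq_iff]
  have : y + y0 + y0 = y := by rw [add_assoc, aav, add_zero]
  rw [this]

/-- `{m ∈ M : q (x + m, y) = a}` is empty or a coset of `{m ∈ M : my = 0}` -/
theorem cnt_M {y : V} {a : Q} (h : ∃ m ∈ M, S.q (x + m) y = a) :
    cnt (fun m => m ∈ M ∧ S.q (x + m) y = a) = cnt (fun m => m ∈ M ∧ C S m y) := by
  obtain ⟨m0, hm0, h0⟩ := h
  apply cnt_shift m0
  intro m
  have h1 : m + m0 ∈ M ↔ m ∈ M := Submodule.add_mem_iff_left M hm0
  have h2 : S.q (x + (m + m0)) y = a ↔ C S m y := by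
    rw [← h0, q_eq'_iff]
    have : x + (m + m0) + (x + m0) = m := by
      have : x + (m + m0) + (x + m0) = m + (x + x) + (m0 + m0) := by abel
      rw [this, aav, aav, add_zero, add_zero]
    rw [this]
  rw [h1, h2]

theorem cnt_M_le (y : V) (a : Q) :
    cnt (fun m => m ∈ M ∧ S.q (x + m) y = a) ≤ cnt (fun m => m ∈ M ∧ C S m y) := by
  by_cases h : ∃ m ∈ M, S.q (x + m) y = a
  · exact (cnt_M h).le
  · have : cnt (fun m => m ∈ M ∧ S.q (x + m) y = a) = 0 := by
      by_contra h0
      obtain ⟨m, h1, h2⟩ := exists_of_pos (Nat.pos_of_ne_zero h0)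
      exact h ⟨m, h1, h2⟩
    rw [this]
    exact Nat.zero_le _

theorem exists_M {y : V} {a : Q}
    (h : cnt (fun m => m ∈ M ∧ S.q (x + m) y = a) = cnt (fun m => m ∈ M ∧ C S m y)) :
    ∃ m ∈ M, S.q (x + m) y = a := by
  have h1 : 0 < cnt (fun m => m ∈ M ∧ C S m y) :=
    cnt_pos (p := fun m => m ∈ M ∧ C S m y) (v := 0) ⟨M.zero_mem, C.zero' y⟩
  rw [← h] at h1
  obtain ⟨m, h2, h3⟩ := exists_of_pos h1
  exact ⟨m, h2, h3⟩

namespace KC

variable (K : KC S x G Fs M E)
include K

theorem xx : C S x x := C.self K.he x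

theorem xmG : x ∈ G := K.xG x K.xx

/-- `V_m` meets all cosets of `G` equally -/
theorem cnt_full {m : V} (hm : m ∈ M) (v : V) :
    cnt (fun y => y + v ∈ G ∧ C S m y) = cnt (fun g => g ∈ G ∧ C S m g) := by
  obtain ⟨g0, hg0, h0⟩ := K.full m hm v
  apply cnt_shift (v + g0)
  intro g
  have h1 : g + (v + g0) + v ∈ G ↔ g ∈ G := by
    have : g + (v + g0) + v = g + g0 := by
      have : g + (v + g0) + v = g + g0 + (v + v) := by abel
      rw [this, aav, add_zero]
    rw [this]
    exact Submodule.add_mem_iff_left G hg0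
  have h2 : C S m (g + (v + g0)) ↔ C S m g := by
    constructor
    · intro h
      have := h.add h0
      rwa [add_assoc, aav, add_zero] at this
    · exact fun h => h.add h0
  rw [h1, h2]

section fixed

variable {u e0 : V} (hu : u ∉ Fs) (he0 : e0 ∈ E) (hue : u + e0 ∈ G)
include hu he0 hue

theorem Yout {y : V} (hy : y + u ∈ G) : y ∉ Fs := by
  intro h
  apply hu
  have := Fs.add_mem (K.GF hy) h
  have h2 : y + u + y = u := by
    have : y + u + y = u + (y + y) := by abel
    rw [this, aav, add_zero]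
  rwa [h2] at this

theorem Yb {y : V} (hy : y + u ∈ G) : ∃ t, S.q y t = S.q x e0 := by
  apply K.good y (K.Yout hu he0 hue hy) e0 he0
  have := G.add_mem hy hue
  have h2 : y + u + (u + e0) = y + e0 := by
    have : y + u + (u + e0) = y + e0 + (u + u) := by abel
    rw [this, aav, add_zero]
  rwa [h2] at this

theorem xY {y : V} (h : S.q x y = S.q x e0) : y + u ∈ G := by
  have h1 := K.xG _ (q_eq_iff.1 h)
  have := G.add_mem h1 hue
  have h2 : y + e0 + (u + e0) = y + u := by
    have : y + e0 + (u + e0) = y + u + (e0 + e0) := by abel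
    rw [this, aav, add_zero]
  rwa [h2] at this

theorem slot {s : V} (h : ∃ t, S.q s t = S.q x e0) :
    ∃ y, S.q s y = S.q x e0 ∧ y + u ∈ G ∧ C S (x + s) y := by
  obtain ⟨t, ht⟩ := h
  obtain ⟨y, h1, h2⟩ := S.link _ _ _ _ ht.symm
  refine ⟨y, h2.symm.trans ht, K.xY hu he0 hue h1.symm, ?_⟩
  rw [← q_eq'_iff]
  rw [← h1, ← h2, ht]

theorem slot_mem {s : V} (h : ∃ t, S.q s t = S.q x e0) : s ∈ G ∨ s + u ∈ G := by
  obtain ⟨y, h1, h2, h3⟩ := K.slot hu he0 hue h
  rcases K.out y (K.Yout hu he0 hue h2) (x + s) h3.symm with h4 | h4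
  · left
    have := G.add_mem h4 K.xmG
    have h5 : x + s + x = s := by
      have : x + s + x = s + (x + x) := by abel
      rw [this, aav, add_zero]
    rwa [h5] at this
  · right
    have := G.add_mem (G.add_mem h4 K.xmG) h2
    have h5 : x + s + y + x + (y + u) = s + u := by
      have : x + s + y + x + (y + u) = s + u + (x + x) + (y + y) := by abel
      rw [this, aav, aav, add_zero, add_zero]
    rwa [h5] at this

theorem slot_M {s : V} (h : ∃ t, S.q s t = S.q x e0) (hs : s ∈ G) : x + s ∈ M := by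
  obtain ⟨y, h1, h2, h3⟩ := K.slot hu he0 hue h
  exact K.inM _ (G.add_mem K.xmG hs) y (K.Yout hu he0 hue h2) h3

theorem slot_Y {s : V} (hs : s ∈ G) {y : V} (h : S.q s y = S.q x e0) : y + u ∈ G := by
  obtain ⟨y', h1, h2, h3⟩ := K.slot hu he0 hue ⟨y, h⟩
  have h4 : C S s (y + y') := q_eq_iff.1 (h.trans h1.symm)
  have h5 := K.slot_M hu he0 hue ⟨y, h⟩ hs
  have h6 : y + y' ∈ G := K.sM (x + s) h5 (y + y') (by
    have : x + (x + s) = s := by rw [← add_assoc, aav, zero_add]
    rw [this]; exact h4)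
  have := G.add_mem h6 h2
  have h7 : y + y' + (y' + u) = y + u := by
    have : y + y' + (y' + u) = y + u + (y' + y') := by abel
    rw [this, aav, add_zero]
  rwa [h7] at this

/-- steps (1), (2) and the first part of (3) -/
theorem E1 : sm (fun s => s ∈ G ∧ ∃ t, S.q s t = S.q x e0) (fun s => cnt fun y => C S s y) =
    sm (fun m => m ∈ M) (fun m => cnt fun g => g ∈ G ∧ C S m g) := by
  have h1 : sm (fun s => s ∈ G ∧ ∃ t, S.q s t = S.q x e0) (fun s => cnt fun y => C S s y) =
      sm (fun s => s ∈ G ∧ ∃ t, S.q s t = S.q x e0)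
        (fun s => cnt fun y => y + u ∈ G ∧ S.q s y = S.q x e0) := by
    refine sm_congr fun s hs => ?_
    obtain ⟨hs1, t, ht⟩ := hs
    rw [← cnt_coset ht]
    refine cnt_congr fun y => ⟨fun h => ⟨K.slot_Y hu he0 hue hs1 h, h⟩, fun h => h.2⟩
  rw [h1, swap (fun s => s ∈ G ∧ ∃ t, S.q s t = S.q x e0) (fun y => y + u ∈ G)
    (fun s y => S.q s y = S.q x e0)]
  have h2 : sm (fun y => y + u ∈ G)
      (fun y => cnt fun s => (s ∈ G ∧ ∃ t, S.q s t = S.q x e0) ∧ S.q s y = S.q x e0) =
      sm (fun y => y + u ∈ G) (fun y => cnt fun m => m ∈ M ∧ C S m y) := by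
    refine sm_congr fun y hy => ?_
    -- a slot in `G`
    have hs0 : ∃ s0 ∈ G, S.q s0 y = S.q x e0 := by
      obtain ⟨t, ht⟩ := K.Yb hu he0 hue hy
      rcases K.slot_mem hu he0 hue (s := t) ⟨y, by rw [S.symm]; exact ht⟩ with h3 | h3
      · exact ⟨t, h3, by rw [S.symm]; exact ht⟩
      · refine ⟨t + y, ?_, ?_⟩
        · have := G.add_mem h3 hy
          have h4 : t + u + (y + u) = t + y := by
            have : t + u + (y + u) = t + y + (u + u) := by abel
            rw [this, aav, add_zero]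
          rwa [h4] at this
        · have h5 : S.q (t + y) y = S.q t y := by
            rw [q_eq'_iff]
            have : t + y + t = y := by
              have : t + y + t = y + (t + t) := by abel
              rw [this, aav, add_zero]
            rw [this]
            exact C.self K.he y
          rw [h5, S.symm]
          exact ht
    obtain ⟨s0, hs0, h0⟩ := hs0
    apply cnt_shift s0
    intro m
    have h3 : S.q (m + s0) y = S.q x e0 ↔ C S m y := by
      rw [← h0, q_eq'_iff]
      have : m + s0 + s0 = m := by rw [add_assoc, aav, add_zero]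
      rw [this]
    constructor
    · rintro ⟨⟨h4, -⟩, h5⟩
      have h6 : m ∈ G := (Submodule.add_mem_iff_left G hs0).1 h4
      exact ⟨K.inM m h6 y (K.Yout hu he0 hue hy) (h3.1 h5), h3.1 h5⟩
    · rintro ⟨h4, h5⟩
      exact ⟨⟨G.add_mem (K.MG h4) hs0, y, h3.2 h5⟩, h3.2 h5⟩
  rw [h2, ← swap (fun m => m ∈ M) (fun y => y + u ∈ G) (fun m y => C S m y)]
  exact sm_congr fun m hm => K.cnt_full hm u

omit hu he0 hue in
theorem E2 : sm (fun m => m ∈ M) (fun m => cnt fun y => C S (x + m) y) ≤
    sm (fun m => m ∈ M) (fun m => cnt fun g => g ∈ G ∧ C S m g) ∧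
    (sm (fun m => m ∈ M) (fun m => cnt fun y => C S (x + m) y) =
    sm (fun m => m ∈ M) (fun m => cnt fun g => g ∈ G ∧ C S m g) →
      ∀ g ∈ G, ∃ m ∈ M, C S (x + m) g) := by
  have h1 : sm (fun m => m ∈ M) (fun m => cnt fun y => C S (x + m) y) =
      sm (fun m => m ∈ M) (fun m => cnt fun y => y ∈ G ∧ S.q (x + m) y = S.z) :=
    sm_congr fun m hm => cnt_congr fun y => ⟨fun h => ⟨K.sM m hm y h, h⟩, fun h => h.2⟩
  rw [h1, swap (fun m => m ∈ M) (fun y => y ∈ G) (fun m y => S.q (x + m) y = S.z),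
    swap (fun m => m ∈ M) (fun y => y ∈ G) (fun m y => C S m y)]
  constructor
  · exact sm_le fun g _ => cnt_M_le g S.z
  · intro h g hg
    exact exists_M (sm_eq (fun g _ => cnt_M_le g S.z) h g hg)

theorem E4 : sm (fun s => s ∈ G ∧ ∃ t, S.q s t = S.q x e0) (fun s => cnt fun y => C S s y) ≤
    sm (fun m => m ∈ M) (fun m => cnt fun y => C S (x + m) y) ∧
    (sm (fun s => s ∈ G ∧ ∃ t, S.q s t = S.q x e0) (fun s => cnt fun y => C S s y) =
    sm (fun m => m ∈ M) (fun m => cnt fun y => C S (x + m) y) →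
      ∀ m ∈ M, ∃ t, S.q (x + m) t = S.q x e0) := by
  have h1 : sm (fun m => m ∈ M) (fun m => cnt fun y => C S (x + m) y) =
      sm (fun s => x + s ∈ M) (fun s => cnt fun y => C S s y) := by
    symm
    apply sm_shift x
    · intro v
      have : x + (v + x) = v := by
        have : x + (v + x) = v + (x + x) := by abel
        rw [this, aav, add_zero]
      rw [this]
    · intro v
      rw [add_comm v x]
  rw [h1]
  have h2 : ∀ s, (s ∈ G ∧ ∃ t, S.q s t = S.q x e0) → x + s ∈ M := fun s hs =>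
    K.slot_M hu he0 hue hs.2 hs.1
  refine ⟨sm_mono h2, fun h m hm => ?_⟩
  have h3 := sm_mono_eq h2 (fun s => cnt_pos (p := fun y => C S s y) (v := 0) (C.zero s)) h (x + m)
    (by
      have : x + (x + m) = m := by rw [← add_assoc, aav, zero_add]
      rw [this]; exact hm)
  exact h3.2

/-- step (3), all equalities -/
theorem all_eq : sm (fun s => s ∈ G ∧ ∃ t, S.q s t = S.q x e0) (fun s => cnt fun y => C S s y) =
    sm (fun m => m ∈ M) (fun m => cnt fun y => C S (x + m) y) ∧
    sm (fun m => m ∈ M) (fun m => cnt fun y => C S (x + m) y) =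
    sm (fun m => m ∈ M) (fun m => cnt fun g => g ∈ G ∧ C S m g) := by
  have h1 := K.E1 hu he0 hue
  have h2 := K.E2.1
  have h3 := (K.E4 hu he0 hue).1
  omega

theorem R1 : ∀ m ∈ M, ∃ t, S.q (x + m) t = S.q x e0 :=
  (K.E4 hu he0 hue).2 (K.all_eq hu he0 hue).1

end fixed

theorem R3 : sm (fun m => m ∈ M) (fun m => cnt fun y => C S (x + m) y) =
    sm (fun m => m ∈ M) (fun m => cnt fun g => g ∈ G ∧ C S m g) := by
  obtain ⟨u, hu⟩ := K.ne
  obtain ⟨e0, he0, hue⟩ := K.EG u
  exact (K.all_eq hu he0 hue).2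

/-- every element of `G` commutes with some element of `x + M` -/
theorem R2 : ∀ g ∈ G, ∃ m ∈ M, C S (x + m) g := K.E2.2 K.R3

/-- step (4): the first components are values of all elements of `x + M` -/
theorem R4 {m : V} (hm : m ∈ M) {v e : V} (he : e ∈ E) (hve : v + e ∈ G) :
    ∃ t, S.q (x + m) t = S.q x e ∧ S.q x t = S.q x e := by
  have key : ∀ {v e : V}, v ∉ Fs → e ∈ E → v + e ∈ G → ∃ t, C S m t ∧ C S x (t + e) := by
    intro v e hv he hve
    obtain ⟨t, ht⟩ := K.R1 hv he hve m hm
    obtain ⟨t', h1, h2⟩ := S.link _ _ _ _ ht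
    refine ⟨t', ?_, q_eq_iff.1 h2.symm⟩
    have h3 : S.q (x + m) t' = S.q x t' := by rw [← h1, ← h2, ht]
    have h4 := q_eq'_iff.1 h3
    have h5 : x + m + x = m := by
      have : x + m + x = m + (x + x) := by abel
      rw [this, aav, add_zero]
    rwa [h5] at h4
  have key2 : ∃ t, C S m t ∧ C S x (t + e) := by
    by_cases hv : v ∈ Fs
    · obtain ⟨u, hu⟩ := K.ne
      obtain ⟨e1, he1, hue⟩ := K.EG u
      obtain ⟨t1, h1, h2⟩ := key hu he1 hue
      have huv : v + u ∉ Fs := fun h => hu ((Submodule.add_mem_iff_right Fs hv).1 h)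
      obtain ⟨t2, h3, h4⟩ := key huv (E.add_mem he he1) (by
        have : v + u + (e + e1) = v + e + (u + e1) := by abel
        rw [this]
        exact G.add_mem hve hue)
      refine ⟨t1 + t2, h1.add h3, ?_⟩
      have := h2.add h4
      have h5 : t1 + e1 + (t2 + (e + e1)) = t1 + t2 + e := by
        have : t1 + e1 + (t2 + (e + e1)) = t1 + t2 + e + (e1 + e1) := by abel
        rw [this, aav, add_zero]
      rwa [h5] at this
    · exact key hv he hve
  obtain ⟨t, h1, h2⟩ := key2
  have h3 : S.q x t = S.q x e := q_eq_iff.2 h2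
  refine ⟨t, ?_, h3⟩
  rw [← h3, q_eq'_iff]
  have h5 : x + m + x = m := by
    have : x + m + x = m + (x + x) := by abel
    rw [this, aav, add_zero]
  rw [h5]
  exact h1

/-- STEP (5): the first component of `q (x, v)` is a value of `v`, with a slot in `x + M` -/
theorem main {v e : V} (he : e ∈ E) (hve : v + e ∈ G) : ∃ m ∈ M, S.q (x + m) v = S.q x e := by
  -- all slots of the value at `x + m` are in `v + G`
  have hN : ∀ m ∈ M, ∀ y, S.q (x + m) y = S.q x e → y + v ∈ G := by
    intro m hm y hy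
    obtain ⟨t, h1, h2⟩ := K.R4 hm he hve
    have h3 : y + t ∈ G := K.sM m hm _ (q_eq_iff.1 (hy.trans h1.symm))
    have h4 : t + e ∈ G := K.xG _ (q_eq_iff.1 h2)
    have := G.add_mem (G.add_mem h3 h4) hve
    have h5 : y + t + (t + e) + (v + e) = y + v := by
      have : y + t + (t + e) + (v + e) = y + v + (t + t) + (e + e) := by abel
      rw [this, aav, aav, add_zero, add_zero]
    rwa [h5] at this
  have h1 : sm (fun m => m ∈ M) (fun m => cnt fun y => C S (x + m) y) =
      sm (fun m => m ∈ M) (fun m => cnt fun y => y + v ∈ G ∧ S.q (x + m) y = S.q x e) := by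
    refine sm_congr fun m hm => ?_
    obtain ⟨t, h1, -⟩ := K.R4 hm he hve
    rw [← cnt_coset h1]
    exact cnt_congr fun y => ⟨fun h => ⟨hN m hm y h, h⟩, fun h => h.2⟩
  have h2 : sm (fun m => m ∈ M) (fun m => cnt fun g => g ∈ G ∧ C S m g) =
      sm (fun m => m ∈ M) (fun m => cnt fun y => y + v ∈ G ∧ C S m y) :=
    sm_congr fun m hm => (K.cnt_full hm v).symm
  have h3 := K.R3
  rw [h1, h2, swap (fun m => m ∈ M) (fun y => y + v ∈ G) (fun m y => S.q (x + m) y = S.q x e),
    swap (fun m => m ∈ M) (fun y => y + v ∈ G) (fun m y => C S m y)] at h3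
  have h4 := sm_eq (fun y _ => cnt_M_le y (S.q x e)) h3 v (by
    show v + v ∈ G
    rw [aav]
    exact G.zero_mem)
  exact exists_M h4

end KC

end main

end Pool.Agent.HAS45
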