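import Pool.Agent.HAS45.K4C

/-!
THEOREM K4+ of helper29, the glue: the first component of `q (x, v)` is inner on planes (second
moment, set valued).
-/

set_option autoImplicit false
set_option linter.unusedSectionVars false
set_option linter.unusedVariables false

namespace Pool.Agent.HAS45

open scoped BigOperators
open Pool.Agent.Helper58.PLine (QData)
open Pool.Agent.ETCP

variable {V Q : Type} [AddCommGroup V] [Module (ZMod 2) V]

/-- values of `s` and of `x` add up alike -/
theorem add_alike {S : QData V Q} {s x v w e f : V} (h1 : S.q s v = S.q x e)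
    (h2 : S.q s w = S.q x f) : S.q s (v + w) = S.q x (e + f) := by
  obtain ⟨t, h3, h4, h5⟩ := link h1
  obtain ⟨t', h6, h7, h8⟩ := link h2
  have h9 : S.q s (v + w) = S.q s (t + t') := by
    rw [q_eq_iff]
    exact (h3.add h6).of_eq rfl (by abel)
  have h10 : S.q x (e + f) = S.q x (t + t') := by
    rw [q_eq_iff]
    exact (h4.add h7).of_eq rfl (by abel)
  rw [h9, h10, q_eq'_iff]
  exact h5.add h8

section two

variable [Fintype V]

/-- exchange of a double sum -/
theorem swap2 (A B : V → Prop) (R : V → V → Prop) (f : V → ℕ) :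
    sm A (fun y => sm (fun z => B z ∧ R y z) f) = sm B (fun z => cnt (fun y => A y ∧ R y z) * f z) := by
  classical
  have h1 : ∀ y : V, (if A y then sm (fun z => B z ∧ R y z) f else 0) =
      ∑ z : V, if A y ∧ B z ∧ R y z then f z else 0 := by
    intro y
    by_cases hy : A y
    · rw [if_pos hy]
      unfold sm
      refine Finset.sum_congr rfl fun z _ => ?_
      by_cases h : B z ∧ R y z
      · rw [if_pos h, if_pos ⟨hy, h⟩]
      · rw [if_neg h, if_neg (fun h' => h h'.2)]
    · rw [if_neg hy]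
      symm
      refine Finset.sum_eq_zero fun z _ => ?_
      rw [if_neg (fun h => hy h.1)]
  have h2 : ∀ z : V, (if B z then cnt (fun y => A y ∧ R y z) * f z else 0) =
      ∑ y : V, if A y ∧ B z ∧ R y z then f z else 0 := by
    intro z
    by_cases hz : B z
    · rw [if_pos hz, cnt_sum, Finset.sum_mul]
      refine Finset.sum_congr rfl fun y _ => ?_
      by_cases h : A y ∧ R y z
      · rw [if_pos h, if_pos ⟨h.1, hz, h.2⟩, one_mul]
      · rw [if_neg h, if_neg (fun h' => h ⟨h'.1, h'.2.2⟩), zero_mul]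
    · rw [if_neg hz]
      symm
      refine Finset.sum_eq_zero fun y _ => ?_
      rw [if_neg (fun h => hz h.2.1)]
  calc sm A (fun y => sm (fun z => B z ∧ R y z) f)
      = ∑ y : V, (if A y then sm (fun z => B z ∧ R y z) f else 0) := rfl
    _ = ∑ y : V, ∑ z : V, (if A y ∧ B z ∧ R y z then f z else 0) :=
        Finset.sum_congr rfl fun y _ => h1 y
    _ = ∑ z : V, ∑ y : V, (if A y ∧ B z ∧ R y z then f z else 0) := Finset.sum_comm
    _ = ∑ z : V, (if B z then cnt (fun y => A y ∧ R y z) * f z else 0) :=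
        (Finset.sum_congr rfl fun z _ => h2 z).symm
    _ = sm B (fun z => cnt (fun y => A y ∧ R y z) * f z) := rfl

end two

section main

variable [Fintype V] {S : QData V Q} {x : V} {G Fs M E : Submodule (ZMod 2) V}
  (K : KC S x G Fs M E) {p : V → V} (hpE : ∀ v, p v ∈ E) (hp : ∀ v, v + p v ∈ G)

/-- number of elements of `x + M` with the prescribed values at `v` and `w` -/
noncomputable def FF (S : QData V Q) (x : V) (M : Submodule (ZMod 2) V) (p : V → V) (v w : V) : ℕ :=
  cnt (fun m => (m ∈ M ∧ S.q (x + m) v = S.q x (p v)) ∧ S.q (x + m) w = S.q x (p w))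

/-- number of elements of `M` commuting with `v` and `w` -/
noncomputable def MM (S : QData V Q) (M : Submodule (ZMod 2) V) (v w : V) : ℕ :=
  cnt (fun m => (m ∈ M ∧ C S m v) ∧ C S m w)

theorem FF_comm (v w : V) : FF S x M p v w = FF S x M p w v :=
  cnt_congr fun m => ⟨fun h => ⟨⟨h.1.1, h.2⟩, h.1.2⟩, fun h => ⟨⟨h.1.1, h.2⟩, h.1.2⟩⟩

theorem MM_comm (v w : V) : MM S M v w = MM S M w v :=
  cnt_congr fun m => ⟨fun h => ⟨⟨h.1.1, h.2⟩, h.1.2⟩, fun h => ⟨⟨h.1.1, h.2⟩, h.1.2⟩⟩

theorem FF_eq {v w m0 : V} (h0 : m0 ∈ M) (h1 : S.q (x + m0) v = S.q x (p v))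
    (h2 : S.q (x + m0) w = S.q x (p w)) : FF S x M p v w = MM S M v w := by
  apply cnt_shift m0
  intro m
  have k1 : m + m0 ∈ M ↔ m ∈ M := Submodule.add_mem_iff_left M h0
  have k2 : ∀ y, S.q (x + (m + m0)) y = S.q (x + m0) y ↔ C S m y := by
    intro y
    rw [q_eq'_iff]
    have : x + (m + m0) + (x + m0) = m := by
      have : x + (m + m0) + (x + m0) = m + (x + x) + (m0 + m0) := by abel
      rw [this, aav, aav, add_zero, add_zero]
    rw [this]
  rw [k1, ← h1, ← h2, k2, k2]

theorem FF_le (v w : V) : FF S x M p v w ≤ MM S M v w := by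
  by_cases h : 0 < FF S x M p v w
  · obtain ⟨m, h1, h2⟩ := exists_of_pos h
    exact (FF_eq h1.1 h1.2 h2).le
  · omega

theorem MM_pos (v w : V) : 0 < MM S M v w :=
  cnt_pos (p := fun m => (m ∈ M ∧ C S m v) ∧ C S m w) (v := 0)
    ⟨⟨M.zero_mem, C.zero' v⟩, C.zero' w⟩

include K hpE hp

/-- the value depends on the coset of `G` only -/
theorem ph_eq {v w : V} (h : v + w ∈ G) : S.q x (p v) = S.q x (p w) := by
  rw [q_eq_iff]
  apply K.Ex _ (E.add_mem (hpE v) (hpE w))
  have := G.add_mem (G.add_mem (hp v) (hp w)) h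
  have h2 : v + p v + (w + p w) + (v + w) = p v + p w := by
    have : v + p v + (w + p w) + (v + w) = p v + p w + (v + v) + (w + w) := by abel
    rw [this, aav, aav, add_zero, add_zero]
  rwa [h2] at this

/-- all slots of the value of `v` at `x + m` are in `v + G` -/
theorem hN {m : V} (hm : m ∈ M) {v y : V} (hy : S.q (x + m) y = S.q x (p v)) : y + v ∈ G := by
  obtain ⟨t, h1, h2⟩ := K.R4 hm (hpE v) (hp v)
  have h3 : y + t ∈ G := K.sM m hm _ (q_eq_iff.1 (hy.trans h1.symm))
  have h4 : t + p v ∈ G := K.xG _ (q_eq_iff.1 h2)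
  have := G.add_mem (G.add_mem h3 h4) (hp v)
  have h5 : y + t + (t + p v) + (v + p v) = y + v := by
    have : y + t + (t + p v) + (v + p v) = y + v + (t + t) + (p v + p v) := by abel
    rw [this, aav, aav, add_zero, add_zero]
  rwa [h5] at this

theorem sumF (v w0 : V) : sm (fun w => w + w0 ∈ G) (fun w => FF S x M p v w) =
    sm (fun m => m ∈ M ∧ S.q (x + m) v = S.q x (p v)) (fun m => cnt fun y => C S (x + m) y) := by
  unfold FF
  rw [← swap (fun m => m ∈ M ∧ S.q (x + m) v = S.q x (p v)) (fun w => w + w0 ∈ G)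
    (fun m w => S.q (x + m) w = S.q x (p w))]
  refine sm_congr fun m hm => ?_
  obtain ⟨t, h1, -⟩ := K.R4 hm.1 (hpE w0) (hp w0)
  rw [← cnt_coset h1]
  refine cnt_congr fun y => ⟨fun h => ?_, fun h => ?_⟩
  · rw [h.2]; exact ph_eq K hpE hp h.1
  · have h2 := hN K hpE hp hm.1 h
    exact ⟨h2, by rw [h]; exact (ph_eq K hpE hp h2).symm⟩

omit hpE hp in
theorem sumM (v w0 : V) : sm (fun w => w + w0 ∈ G) (fun w => MM S M v w) =
    sm (fun m => m ∈ M ∧ C S m v) (fun m => cnt fun g => g ∈ G ∧ C S m g) := by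
  unfold MM
  rw [← swap (fun m => m ∈ M ∧ C S m v) (fun w => w + w0 ∈ G) (fun m w => C S m w)]
  exact sm_congr fun m hm => K.cnt_full hm.1 w0

/-- full on one coset of `G` is full everywhere -/
theorem full_all {v w0 : V} (h : ∀ w, w + w0 ∈ G → FF S x M p v w = MM S M v w) (w : V) :
    FF S x M p v w = MM S M v w := by
  have h1 : sm (fun w => w + w0 ∈ G) (fun w => FF S x M p v w) =
      sm (fun w => w + w0 ∈ G) (fun w => MM S M v w) := sm_congr h
  rw [sumF K hpE hp, sumM K] at h1
  have h2 : sm (fun w' => w' + w ∈ G) (fun w => FF S x M p v w) =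
      sm (fun w' => w' + w ∈ G) (fun w => MM S M v w) := by
    rw [sumF K hpE hp, sumM K]
    exact h1
  exact sm_eq (fun w _ => FF_le v w) h2 w (by
    show w + w ∈ G
    rw [aav]
    exact G.zero_mem)

section fixed

variable {u : V} (hu : u ∉ Fs)
include hu

/-- two elements of `u + G` have a common slot in `x + M` -/
theorem YY {y y' : V} (hy : y + u ∈ G) (hy' : y' + u ∈ G) : FF S x M p y y' = MM S M y y' := by
  have hue := hp u
  have hpu := hpE u
  set b : Q := S.q x (p u) with hb
  have hbY : ∀ z, z + u ∈ G → S.q x (p z) = b := fun z hz => ph_eq K hpE hp hz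
  -- common slots
  have hslot : ∀ y y', y + u ∈ G → y' + u ∈ G → ∃ z, S.q z y = b ∧ S.q z y' = b ∧ (z ∈ G ∨ z + u ∈ G) := by
    intro y y' hy hy'
    obtain ⟨t, ht⟩ := K.Yb hu hpu hue hy
    obtain ⟨t', ht'⟩ := K.Yb hu hpu hue hy'
    obtain ⟨z, h1, h2⟩ := S.link _ _ _ _ (ht.trans ht'.symm)
    have h3 : S.q z y = b := by rw [S.symm, ← h1, ht]
    have h4 : S.q z y' = b := by rw [S.symm, ← h2, ht']
    exact ⟨z, h3, h4, K.slot_mem hu hpu hue ⟨y, h3⟩⟩
  -- the two kinds of numbers
  set N : V → V → ℕ := fun y y' => cnt (fun z => (z + u ∈ G ∧ S.q z y = b) ∧ S.q z y' = b) with hNdef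
  set W : V → V → ℕ := fun y y' => cnt (fun z => (z + u ∈ G ∧ C S z y) ∧ C S z y') with hWdef
  have hNW : ∀ y y', y + u ∈ G → y' + u ∈ G → 0 < W y y' → N y y' = W y y' := by
    intro y y' hy hy' hpos
    obtain ⟨z0, ⟨h0, h1⟩, h2⟩ := exists_of_pos hpos
    obtain ⟨z1, h3, h4, h5⟩ := hslot y y' hy hy'
    -- a common slot in `u + G`
    have hz : ∃ z2, z2 + u ∈ G ∧ S.q z2 y = b ∧ S.q z2 y' = b := by
      rcases h5 with h5 | h5
      · refine ⟨z1 + z0, ?_, ?_, ?_⟩
        · rw [add_assoc]; exact G.add_mem h5 h0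
        · rw [← h3, q_eq'_iff]
          exact h1.of_eq (by
            have : z1 + z0 + z1 = z0 + (z1 + z1) := by abel
            rw [this, aav, add_zero]) rfl
        · rw [← h4, q_eq'_iff]
          exact h2.of_eq (by
            have : z1 + z0 + z1 = z0 + (z1 + z1) := by abel
            rw [this, aav, add_zero]) rfl
      · exact ⟨z1, h5, h3, h4⟩
    obtain ⟨z2, h6, h7, h8⟩ := hz
    have ha : z0 + z2 ∈ G := by
      have := G.add_mem h0 h6
      have h9 : z0 + u + (z2 + u) = z0 + z2 := by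
        have : z0 + u + (z2 + u) = z0 + z2 + (u + u) := by abel
        rw [this, aav, add_zero]
      rwa [h9] at this
    apply cnt_shift (z0 + z2)
    intro z
    have k1 : z + (z0 + z2) + u ∈ G ↔ z + u ∈ G := by
      have : z + (z0 + z2) + u = (z + u) + (z0 + z2) := by abel
      rw [this]
      exact Submodule.add_mem_iff_left G ha
    have k2 : ∀ t, S.q z2 t = b → C S z0 t → (S.q (z + (z0 + z2)) t = b ↔ C S z t) := by
      intro t ht ht0
      rw [← ht, q_eq'_iff]
      have e1 : z + (z0 + z2) + z2 = z + z0 := by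
        have : z + (z0 + z2) + z2 = z + z0 + (z2 + z2) := by abel
        rw [this, aav, add_zero]
      rw [e1]
      constructor
      · intro h
        have := h.add' ht0
        rwa [add_assoc, aav, add_zero] at this
      · exact fun h => h.add' ht0
    rw [k1, k2 y h7 h1, k2 y' h8 h2]
  have hle : ∀ y y', y + u ∈ G → y' + u ∈ G → W y y' ≤ N y y' := by
    intro y y' hy hy'
    by_cases h : 0 < W y y'
    · exact (hNW y y' hy hy' h).ge
    · omega
  -- the total numbers agree
  have hz : ∀ z, z + u ∈ G → cnt (fun y => y + u ∈ G ∧ S.q z y = b) =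
      cnt (fun y => y + u ∈ G ∧ C S z y) := by
    intro z hz
    obtain ⟨m, hm, h1⟩ := K.main (hpE z) (hp z)
    have hs0 : x + m ∈ G := G.add_mem K.xmG (K.MG hm)
    have h2 : S.q z (x + m) = b := by rw [S.symm, h1, hbY z hz]
    apply cnt_shift (x + m)
    intro y
    have k1 : y + (x + m) + u ∈ G ↔ y + u ∈ G := by
      have : y + (x + m) + u = (y + u) + (x + m) := by abel
      rw [this]
      exact Submodule.add_mem_iff_left G hs0
    have k2 : S.q z (y + (x + m)) = b ↔ C S z y := by
      rw [← h2, q_eq_iff]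
      have : y + (x + m) + (x + m) = y := by rw [add_assoc, aav, add_zero]
      rw [this]
    rw [k1, k2]
  have tN : sm (fun y => y + u ∈ G) (fun y => sm (fun y' => y' + u ∈ G) (fun y' => N y y')) =
      sm (fun z => z + u ∈ G) (fun z => cnt (fun y => y + u ∈ G ∧ S.q z y = b) *
        cnt (fun y' => y' + u ∈ G ∧ S.q z y' = b)) := by
    rw [← swap2 (fun y => y + u ∈ G) (fun z => z + u ∈ G) (fun y z => S.q z y = b)
      (fun z => cnt (fun y' => y' + u ∈ G ∧ S.q z y' = b))]
    refine sm_congr fun y _ => ?_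
    exact (swap (fun z => z + u ∈ G ∧ S.q z y = b) (fun y' => y' + u ∈ G)
      (fun z y' => S.q z y' = b)).symm
  have tW : sm (fun y => y + u ∈ G) (fun y => sm (fun y' => y' + u ∈ G) (fun y' => W y y')) =
      sm (fun z => z + u ∈ G) (fun z => cnt (fun y => y + u ∈ G ∧ C S z y) *
        cnt (fun y' => y' + u ∈ G ∧ C S z y')) := by
    rw [← swap2 (fun y => y + u ∈ G) (fun z => z + u ∈ G) (fun y z => C S z y)
      (fun z => cnt (fun y' => y' + u ∈ G ∧ C S z y'))]
    refine sm_congr fun y _ => ?_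
    exact (swap (fun z => z + u ∈ G ∧ C S z y) (fun y' => y' + u ∈ G) (fun z y' => C S z y')).symm
  have ht : sm (fun y => y + u ∈ G) (fun y => sm (fun y' => y' + u ∈ G) (fun y' => W y y')) =
      sm (fun y => y + u ∈ G) (fun y => sm (fun y' => y' + u ∈ G) (fun y' => N y y')) := by
    rw [tN, tW]
    exact sm_congr fun z h => by rw [hz z h]
  have h1 := sm_eq (fun y hy => sm_le fun y' hy' => hle y y' hy hy') ht y hy
  have h2 := sm_eq (fun y' hy' => hle y y' hy hy') h1 y' hy'
  -- a common slot in `G`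
  have hG : ∃ z ∈ G, S.q z y = b ∧ S.q z y' = b := by
    obtain ⟨z1, h3, h4, h5⟩ := hslot y y' hy hy'
    rcases h5 with h5 | h5
    · exact ⟨z1, h5, h3, h4⟩
    · have h6 : 0 < N y y' :=
        cnt_pos (p := fun z => (z + u ∈ G ∧ S.q z y = b) ∧ S.q z y' = b) (v := z1) ⟨⟨h5, h3⟩, h4⟩
      rw [← h2] at h6
      obtain ⟨z0, ⟨h7, h8⟩, h9⟩ := exists_of_pos h6
      refine ⟨z1 + z0, ?_, ?_, ?_⟩
      · have := G.add_mem h5 h7
        have h10 : z1 + u + (z0 + u) = z1 + z0 := by
          have : z1 + u + (z0 + u) = z1 + z0 + (u + u) := by abel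
          rw [this, aav, add_zero]
        rwa [h10] at this
      · rw [← h3, q_eq'_iff]
        exact h8.of_eq (by
          have : z1 + z0 + z1 = z0 + (z1 + z1) := by abel
          rw [this, aav, add_zero]) rfl
      · rw [← h4, q_eq'_iff]
        exact h9.of_eq (by
          have : z1 + z0 + z1 = z0 + (z1 + z1) := by abel
          rw [this, aav, add_zero]) rfl
  obtain ⟨z, h3, h4, h5⟩ := hG
  have h6 := K.slot_M hu hpu hue ⟨y, h4⟩ h3
  have h7 : x + (x + z) = z := by rw [← add_assoc, aav, zero_add]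
  exact FF_eq h6 (by rw [h7, h4, hbY y hy]) (by rw [h7, h5, hbY y' hy'])

end fixed

theorem FF_full (v w : V) : FF S x M p v w = MM S M v w := by
  obtain ⟨u, hu⟩ := K.ne
  -- elements outside of `Fs`
  have h1 : ∀ y, y + u ∈ G → ∀ w, FF S x M p y w = MM S M y w := fun y hy w =>
    full_all K hpE hp (w0 := u) (fun w hw => YY K hpE hp hu hy hw) w
  refine full_all K hpE hp (w0 := u) (fun w hw => ?_) w
  rw [FF_comm, MM_comm]
  exact h1 w hw v

/-- any two elements have a common slot in `x + M` for their values -/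
theorem pair (v w : V) : ∃ m ∈ M, S.q (x + m) v = S.q x (p v) ∧ S.q (x + m) w = S.q x (p w) := by
  have h1 : 0 < FF S x M p v w := by
    rw [FF_full K hpE hp]
    exact MM_pos v w
  obtain ⟨m, h2, h3⟩ := exists_of_pos h1
  exact ⟨m, h2.1, h2.2, h3⟩

/-- THE GLUE of K4+: the first component is inner on planes, with a slot in `x + M` -/
theorem plane_inner (v w : V) : ∃ m ∈ M, S.q v (x + m) = S.q x (p v) ∧
    S.q w (x + m) = S.q x (p w) ∧ S.q (v + w) (x + m) = S.q x (p (v + w)) := by
  obtain ⟨m, hm, h1, h2⟩ := pair K hpE hp v w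
  refine ⟨m, hm, by rw [S.symm, h1], by rw [S.symm, h2], ?_⟩
  rw [S.symm, add_alike h1 h2, q_eq_iff]
  apply K.Ex _ (E.add_mem (E.add_mem (hpE v) (hpE w)) (hpE _))
  have := G.add_mem (G.add_mem (hp v) (hp w)) (hp (v + w))
  have h3 : v + p v + (w + p w) + (v + w + p (v + w)) = p v + p w + p (v + w) := by
    have : v + p v + (w + p w) + (v + w + p (v + w)) =
        p v + p w + p (v + w) + (v + v) + (w + w) := by abel
    rw [this, aav, aav, add_zero, add_zero]
  rwa [h3] at this

end main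

end Pool.Agent.HAS45
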