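import Pool.Agent.HAS45.K4D
import Pool.Agent.ETCT.K4GE
import Pool.Agent.HAS53.Main

/-!
THEOREM K4+ of helper29, assembly: if the first component (rigid part `G, F`) of the Pfister quotient
of `x` is good, then it splits off and there is a prime functional.
-/

set_option autoImplicit false
set_option linter.unusedSectionVars false

namespace Pool.Agent.HAS45

open Pool.Agent.Helper58.PLine (QData)
open Pool.Agent.ETCP Pool.Agent.ETCT Pool.Agent.ETCLH
open Pool.Agent.ZPC2 Pool.Agent.LF53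

variable {V Q : Type} [AddCommGroup V] [Module (ZMod 2) V]

/-- quaternionic data as a set valued map -/
def bd (S : QData V Q) : BD V V Q where
  q := S.q
  z := S.z
  qr := S.add
  ql := fun _ _ _ => q_eq'_iff

/-- the data of the count from the data of part (0) -/
theorem kc_of_RFG [Finite V] {S : QData V Q} {G F E : Submodule (ZMod 2) V} {x : V}
    (he : S.e = 0) (R : RFG S G F) (hr : ∃ a b, a ∉ G ∧ b ∉ G ∧ a + b ∉ G) (hx : x ∈ G)
    (hxG : S.ann x ≤ G) (EG : ∀ v, ∃ e ∈ E, v + e ∈ G) (Ex : ∀ e ∈ E, e ∈ G → C S x e)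
    (good : ∀ u, u ∉ F → ∀ e ∈ E, u + e ∈ G → ∃ t, S.q u t = S.q x e) :
    ∃ Fs M, KC S x G Fs M E := by
  obtain ⟨Fs, M, h1, h2, h3, h4, h5, -, h7, h8⟩ := R.all he hr hx hxG
  refine ⟨Fs, M, ⟨he, fun y hy => hxG hy, h1, ?_, h8, fun m hm => ((h5 m).1 hm).1, ?_, ?_, h7, EG,
    Ex, fun u hu => good u (fun h => hu (h2 h))⟩⟩
  · by_contra hcon
    push Not at hcon
    exact h3 (eq_top_iff.2 fun v _ => hcon v)
  · intro m hm v
    have h9 : v ∈ S.ann m ⊔ G := by
      rw [((h5 m).1 hm).2]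
      exact Submodule.mem_top
    obtain ⟨a, ha, g, hg, hag⟩ := Submodule.mem_sup.1 h9
    refine ⟨g, hg, ?_⟩
    have : v + g = a := by rw [← hag, add_assoc, aav, add_zero]
    rw [this]
    exact ha
  · intro g hg y hy hgy
    refine (h5 g).2 ⟨hg, h4 g hg fun h => hy (h hgy)⟩

/-- **THEOREM K4+**: the good first component splits off: `V_z = G` for some `z` -/
theorem exists_ann_eq [Finite V] {S : QData V Q} {G F E : Submodule (ZMod 2) V} {x : V}
    (he : S.e = 0) (R : RFG S G F) (hr : ∃ a b, a ∉ G ∧ b ∉ G ∧ a + b ∉ G) (hx : x ∈ G)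
    (hxG : S.ann x ≤ G) (EG : ∀ v, ∃ e ∈ E, v + e ∈ G) (Ex : ∀ e ∈ E, e ∈ G → C S x e)
    (good : ∀ u, u ∉ F → ∀ e ∈ E, u + e ∈ G → ∃ t, S.q u t = S.q x e) :
    ∃ z, S.ann z = G := by
  classical
  obtain ⟨Fs, M, K⟩ := kc_of_RFG he R hr hx hxG EG Ex good
  have := Fintype.ofFinite V
  choose p hpE hp using EG
  obtain ⟨t, ht⟩ := HAS53.hasse (D := bd S) (fun v w => S.symm v w) (by
    rintro c y y' ⟨a, ha⟩ ⟨b, hb⟩
    obtain ⟨s, h1, h2⟩ := S.link y a y' b (ha.trans hb.symm)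
    exact ⟨s, h1.symm.trans ha, h2.symm.trans hb⟩) (fun v => S.q x (p v)) (by
    intro v w
    obtain ⟨m, -, h1, h2, h3⟩ := plane_inner K hpE hp v w
    exact ⟨x + m, h1, h2, h3⟩)
  refine ⟨t, ?_⟩
  ext v
  have h1 : v ∈ S.ann t ↔ C S x (p v) := by
    have h2 : S.q x (p v) = S.q v t := ht v
    show S.q t v = S.z ↔ S.q x (p v) = S.z
    rw [h2, S.symm]
  rw [h1]
  constructor
  · intro h
    have := G.add_mem (hp v) (hxG h)
    rwa [add_assoc, aav, add_zero] at this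
  · intro h
    apply Ex _ (hpE v)
    have := G.add_mem h (hp v)
    rwa [← add_assoc, aav, zero_add] at this

/-- K4+ in a least exotic structure -/
theorem Mn_no_good [Finite V] {S : QData V Q} {G F E : Submodule (ZMod 2) V} {x : V}
    (N : Mn S) (R : RFG S G F) (hr : ∃ a b, a ∉ G ∧ b ∉ G ∧ a + b ∉ G) (hx : x ∈ G)
    (hxG : S.ann x ≤ G) (EG : ∀ v, ∃ e ∈ E, v + e ∈ G) (Ex : ∀ e ∈ E, e ∈ G → C S x e)
    (good : ∀ u, u ∉ F → ∀ e ∈ E, u + e ∈ G → ∃ t, S.q u t = S.q x e) : False := by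
  obtain ⟨z, hz⟩ := exists_ann_eq N.he R hr hx hxG EG Ex good
  exact Mn.noRFG N R hr z hz

end Pool.Agent.HAS45
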